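import Mathlib
import Pool.Agent.H46.SQ.Targets

set_option autoImplicit false

open Finset

namespace Pool.Agent.H19.SR

open Pool.Agent.H46.SQ

theorem sr_TWO (hIDX : T_IDX) : T_TWO := by
  obtain ⟨C, hC, h⟩ := hIDX
  refine ⟨C, hC, fun N hN => ?_⟩
  set A : Set ℕ := (((Finset.Icc 1 N).filter (fun k => ((pp k) ^ 2 - 2).Prime) : Finset ℕ) : Set ℕ)
    with hA
  set B : Set ℕ := {m : ℕ | 0 < m ∧ m ≤ N ∧ ((pp m) ^ 2 - 2).Prime ∧
    ((pp (pp m)) ^ 2 - 2).Prime} with hB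
  have hBfin : B.Finite := (Set.finite_Iic N).subset (fun m hm => hm.2.1)
  have hAfin : A.Finite := Finset.finite_toSet _
  have hsub : {n : ℕ | n ≤ N ∧ ∃ k m : ℕ, 0 < k ∧ 0 < m ∧ k + m = n ∧
    ((pp k) ^ 2 - 2).Prime ∧ ((pp m) ^ 2 - 2).Prime ∧ ((pp (pp m)) ^ 2 - 2).Prime} ⊆
      (fun x : ℕ × ℕ => x.1 + x.2) '' (A ×ˢ B) := by
    rintro n ⟨hn, k, m, hk, hm, hkm, h1, h2, h3⟩
    refine ⟨(k, m), ⟨?_, ?_⟩, hkm⟩
    · simp only [hA, Finset.coe_filter, Finset.mem_Icc, Set.mem_ofPred_eq]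
      exact ⟨⟨hk, by omega⟩, h1⟩
    · exact ⟨hm, by show m ≤ N; omega, h2, h3⟩
  have hfin : (A ×ˢ B).Finite := hAfin.prod hBfin
  have h1 := Set.ncard_le_ncard hsub (hfin.image _)
  have h2 := Set.ncard_image_le (f := fun x : ℕ × ℕ => x.1 + x.2) hfin
  have h3 : (A ×ˢ B).ncard = A.ncard * B.ncard := Set.ncard_prod
  have h4 : A.ncard = ((Finset.Icc 1 N).filter (fun k => ((pp k) ^ 2 - 2).Prime)).card := by
    rw [hA, Set.ncard_coe_finset]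
  have h5 := h N hN
  rw [← h4] at h5
  have h6 : (({n : ℕ | n ≤ N ∧ ∃ k m : ℕ, 0 < k ∧ 0 < m ∧ k + m = n ∧
    ((pp k) ^ 2 - 2).Prime ∧ ((pp m) ^ 2 - 2).Prime ∧
      ((pp (pp m)) ^ 2 - 2).Prime}.ncard : ℝ)) ≤ (A.ncard : ℝ) * (B.ncard : ℝ) := by
    have h7 := h1.trans h2
    rw [h3] at h7
    exact_mod_cast h7
  refine h6.trans ?_
  have h8 : C * (N / Real.log N) * (B.ncard : ℝ) = (C * N / Real.log N) * (B.ncard : ℝ) := by ring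
  rw [h8]
  exact mul_le_mul_of_nonneg_right h5 (Nat.cast_nonneg _)

end Pool.Agent.H19.SR
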